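import Pool.Agent.H24.SCG.Base

/-! Involutions of `AutG F` are in the range of `iota F`. -/

namespace Pool.Agent.H13.SCG

open Matrix Pool.SCG

variable {F : Type*} [Field F]

theorem fieldAut_apply (σ : F ≃+* F) (g : SL3 F) :
    fieldAut σ g = Matrix.SpecialLinearGroup.map (σ : F →+* F) g := rfl

theorem fieldAut_mul (σ τ : F ≃+* F) : fieldAut (σ * τ) = fieldAut σ * fieldAut τ := by
  ext g i j
  simp [fieldAut_apply, MulAut.mul_apply]

theorem fieldAut_one : fieldAut (1 : F ≃+* F) = 1 := by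
  ext g i j
  simp [fieldAut_apply]

theorem fieldAut_tr (σ : F ≃+* F) (m : SL3 F) :
    fieldAut σ m.transpose = (fieldAut σ m).transpose := by
  apply Subtype.ext
  ext i j
  simp [fieldAut_apply, Matrix.SpecialLinearGroup.coe_transpose]

theorem fieldAut_it (σ : F ≃+* F) (m : SL3 F) : fieldAut σ (it m) = it (fieldAut σ m) := by
  have h : fieldAut σ m⁻¹ = (fieldAut σ m)⁻¹ := map_inv _ _
  rw [it, it, ← h, fieldAut_tr]

theorem fieldAut_tw (σ : F ≃+* F) (s : Bool) (m : SL3 F) :
    fieldAut σ (tw s m) = tw s (fieldAut σ m) := by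
  cases s
  · simp [tw]
  · simp [tw, fieldAut_it]

/-- the action of a field automorphism on `Cor F` -/
def fx (σ : F ≃+* F) (x : Cor F) : Cor F := ⟨fieldAut σ x.m, x.s⟩

theorem fieldAut_iota (σ : F ≃+* F) (x : Cor F) :
    fieldAut σ * iota F x = iota F (fx σ x) * fieldAut σ := by
  ext g : 1
  rw [MulAut.mul_apply, MulAut.mul_apply, iota_apply, iota_apply, fieldAut_tw, map_mul, map_mul,
    map_inv]
  rfl

theorem aui_thm (hAUN : AUNStmt) (hAUF : AUFStmt) (hFAO : FAOStmt) (hGOO : GOOStmt) :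
    AUIStmt := by
  intro F _ _ hq α hα h2
  have hG : Good F := (hGOO F hq).1
  obtain ⟨x, σ, rfl⟩ := hAUN F hG α hα
  have h3 : iota F (x * fx σ x) * fieldAut (σ * σ) = 1 := by
    calc iota F (x * fx σ x) * fieldAut (σ * σ)
        = iota F x * (iota F (fx σ x) * fieldAut σ) * fieldAut σ := by
          rw [map_mul, fieldAut_mul]
          simp only [mul_assoc]
      _ = iota F x * (fieldAut σ * iota F x) * fieldAut σ := by rw [fieldAut_iota]
      _ = (iota F x * fieldAut σ) * (iota F x * fieldAut σ) := by simp only [mul_assoc]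
      _ = 1 := h2
  have h4 : iota F (x * fx σ x) = fieldAut ((σ * σ)⁻¹) := by
    have h5 : fieldAut (σ * σ) * fieldAut ((σ * σ)⁻¹) = 1 := by
      rw [← fieldAut_mul, mul_inv_cancel, fieldAut_one]
    calc iota F (x * fx σ x) = iota F (x * fx σ x) * (fieldAut (σ * σ) * fieldAut ((σ * σ)⁻¹)) := by
          rw [h5, mul_one]
      _ = _ := by rw [← mul_assoc, h3, one_mul]
  have h6 := (hAUF F hG _ _ h4).1
  have h7 : σ * σ = 1 := inv_eq_one.1 h6
  have h8 := hFAO F hq σ h7
  subst h8
  exact ⟨x, by rw [fieldAut_one, mul_one]⟩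

end Pool.Agent.H13.SCG
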