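import Pool.Agent.H24.SCG.Base

/-! The monomial base change of case 2. -/

namespace Pool.Agent.H13.SCG

open Matrix Pool.SCG

variable {F : Type*} [Field F]

/-- base change of an inner element, criterion -/
theorem cj_inner_of {x : Cor F} {A B : M3 F} (P : SL3 F) (hx : Is x false A)
    (h : A * (P : M3 F) = (P : M3 F) * B) : Is (cj P x) false B := by
  have := hx.cj_inner P
  rw [mul_assoc, h, ← mul_assoc, adj_mul_self P.2, one_mul] at this
  exact this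

/-- base change of an outer element, criterion -/
theorem cj_outer_of {x : Cor F} {A B : M3 F} (P : SL3 F) (hx : Is x true A)
    (h : (P : M3 F).transpose * A * (P : M3 F) = B) : Is (cj P x) true B := by
  have := hx.cj_outer P
  rwa [h] at this

/-- the base change of case 2 -/
def PM (p w1 w2 w3 : F) : M3 F := !![p * w1, p * w1, 0; -(p * w2), p * w2, 0; 0, 0, p * w3]

theorem PM_block (p w1 w2 w3 a b c d : F) :
    (PM p w1 w2 w3).transpose * !![a, b, 0; b, c, 0; 0, 0, d] * PM p w1 w2 w3 =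
      !![p ^ 2 * (a * w1 ^ 2 - 2 * b * w1 * w2 + c * w2 ^ 2), p ^ 2 * (a * w1 ^ 2 - c * w2 ^ 2), 0;
         p ^ 2 * (a * w1 ^ 2 - c * w2 ^ 2), p ^ 2 * (a * w1 ^ 2 + 2 * b * w1 * w2 + c * w2 ^ 2), 0;
         0, 0, p ^ 2 * (d * w3 ^ 2)] := by
  ext i j
  fin_cases i <;> fin_cases j <;>
    simp [PM, Matrix.mul_apply, Fin.sum_univ_three] <;> ring

theorem c2s_thm : C2SStmt := by
  intro F _ _ hF b1 b2 b3 w1 w2 w3 hdet hw1 hw2 hw3 h12 h3
  have h2 : (2 : F) ≠ 0 := hF.1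
  obtain ⟨p, hp⟩ := exists_cube hF ((2 * w1 * w2 * w3)⁻¹)
  have hne : 2 * w1 * w2 * w3 ≠ 0 := by
    simp only [ne_eq, mul_eq_zero, not_or]
    exact ⟨⟨⟨h2, hw1⟩, hw2⟩, hw3⟩
  have hp1 : p ^ 3 * (2 * w1 * w2 * w3) = 1 := by
    rw [hp, inv_mul_cancel₀ hne]
  have hp0 : p ≠ 0 := by
    rintro rfl
    simp at hp1
  -- `p ^ 2 * om = 1`
  have hom : p ^ 2 * (b3 * w3 ^ 2) = 1 := by
    apply hF.2
    have e1 : b1 * w1 ^ 2 * 2 = b3 * w3 ^ 2 := by rw [← h3, ← h12]; ring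
    have e2 : b2 * w2 ^ 2 * 2 = b3 * w3 ^ 2 := by rw [← h3, h12]; ring
    calc (p ^ 2 * (b3 * w3 ^ 2)) ^ 3
        = p ^ 6 * ((b3 * w3 ^ 2) * (b3 * w3 ^ 2) * (b3 * w3 ^ 2)) := by ring
      _ = p ^ 6 * ((b1 * w1 ^ 2 * 2) * (b2 * w2 ^ 2 * 2) * (b3 * w3 ^ 2)) := by rw [e1, e2]
      _ = (b1 * b2 * b3) * (p ^ 3 * (2 * w1 * w2 * w3)) ^ 2 := by ring
      _ = 1 := by rw [hdet, hp1]; ring
  have hsum : p ^ 2 * (b1 * w1 ^ 2 + b2 * w2 ^ 2) = 1 := by rw [h3, hom]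
  have hdiff : b1 * w1 ^ 2 - b2 * w2 ^ 2 = 0 := sub_eq_zero.2 h12
  have hd : (PM p w1 w2 w3).det = 1 := by
    rw [Matrix.det_fin_three]
    simp [PM]
    linear_combination hp1
  have hsinv : (b1 * w1 ^ 2 + b2 * w2 ^ 2)⁻¹ = p ^ 2 := by
    symm
    exact eq_inv_of_mul_eq_one_left hsum
  have hq : 2 * (b1 * w1 ^ 2 + b2 * w2 ^ 2 + b3 * w3 ^ 2)⁻¹ = p ^ 2 := by
    have e : p ^ 2 * 2⁻¹ * (b1 * w1 ^ 2 + b2 * w2 ^ 2 + b3 * w3 ^ 2) = 1 := by
      have : p ^ 2 * 2⁻¹ * (b1 * w1 ^ 2 + b2 * w2 ^ 2 + b3 * w3 ^ 2) =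
          2⁻¹ * (p ^ 2 * (b1 * w1 ^ 2 + b2 * w2 ^ 2) + p ^ 2 * (b3 * w3 ^ 2)) := by ring
      rw [this, hsum, hom]
      field_simp
      norm_num
    rw [← eq_inv_of_mul_eq_one_left e]
    field_simp
  -- the form becomes the identity
  have hform : (PM p w1 w2 w3).transpose * dg b1 b2 b3 * PM p w1 w2 w3 = 1 := by
    have := PM_block p w1 w2 w3 b1 0 b2 b3
    have e : (!![b1, 0, 0; 0, b2, 0; 0, 0, b3] : M3 F) = dg b1 b2 b3 := rfl
    rw [e] at this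
    rw [this, ← dg_one]
    have e0 : b1 * w1 ^ 2 - 2 * 0 * w1 * w2 + b2 * w2 ^ 2 = b1 * w1 ^ 2 + b2 * w2 ^ 2 := by ring
    have e1 : b1 * w1 ^ 2 + 2 * 0 * w1 * w2 + b2 * w2 ^ 2 = b1 * w1 ^ 2 + b2 * w2 ^ 2 := by ring
    rw [e0, e1, hsum, hdiff, hom, mul_zero]
    rfl
  have hhB : hB b1 b2 b3 w1 w2 w3 * PM p w1 w2 w3 = PM p w1 w2 w3 * Jm F := by
    rw [hB, hq, sub_mul, one_mul, Matrix.smul_mul]
    ext i j
    fin_cases i <;> fin_cases j <;>
      simp [PM, Jm, Matrix.mul_apply, Fin.sum_univ_three]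
    · right; linear_combination p * w1 * hdiff
    · linear_combination p * w1 * hsum
    · linear_combination p * w1 * hom
    · right; linear_combination p * w2 * hdiff
    · linear_combination p * w2 * hsum
    · linear_combination p * w2 * hom
    · right; linear_combination p * w3 * hdiff
    · linear_combination p * w3 * hsum
    · linear_combination p * w3 * hom
  refine ⟨⟨PM p w1 w2 w3, hd⟩, ?_, ?_, ?_, ?_, ?_, ?_, ?_⟩
  · intro x hx
    refine cj_outer_of _ hx ?_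
    rw [dg_one]
    exact hform
  · intro x α β γ hx
    refine cj_outer_of _ hx ?_
    show (PM p w1 w2 w3).transpose * BM b1 b2 b3 w1 w2 α β γ * PM p w1 w2 w3 = _
    rw [BM, hsinv, PM_block]
    ext i j
    fin_cases i <;> fin_cases j <;> simp [dg]
    · linear_combination α * hsum + (β - α) * p ^ 4 * (b1 * w1 ^ 2 - b2 * w2 ^ 2) * hdiff
    · right
      linear_combination (α + (β - α) * p ^ 2 * (b1 * w1 ^ 2 + b2 * w2 ^ 2)) * hdiff
    · right
      linear_combination (α + (β - α) * p ^ 2 * (b1 * w1 ^ 2 + b2 * w2 ^ 2)) * hdiff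
    · linear_combination (α + (β - α) * (p ^ 2 * (b1 * w1 ^ 2 + b2 * w2 ^ 2) + 1)) * hsum
    · linear_combination γ * hom
  · intro x hx
    refine cj_inner_of _ hx ?_
    show dg 1 (-1) (-1) * PM p w1 w2 w3 = PM p w1 w2 w3 * Sm F
    ext i j
    fin_cases i <;> fin_cases j <;> simp [dg, PM, Sm, Matrix.mul_apply, Fin.sum_univ_three]
  · intro x hx
    refine cj_outer_of _ hx ?_
    show (PM p w1 w2 w3).transpose * dg b1 (-b2) (-b3) * PM p w1 w2 w3 = _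
    have := PM_block p w1 w2 w3 b1 0 (-b2) (-b3)
    have e : (!![b1, 0, 0; 0, -b2, 0; 0, 0, -b3] : M3 F) = dg b1 (-b2) (-b3) := rfl
    rw [e] at this
    rw [this]
    have e0 : p ^ 2 * (b1 * w1 ^ 2 - 2 * 0 * w1 * w2 + -b2 * w2 ^ 2) = 0 := by
      linear_combination p ^ 2 * hdiff
    have e1 : p ^ 2 * (b1 * w1 ^ 2 + 2 * 0 * w1 * w2 + -b2 * w2 ^ 2) = 0 := by
      linear_combination p ^ 2 * hdiff
    have e2 : p ^ 2 * (b1 * w1 ^ 2 - -b2 * w2 ^ 2) = 1 := by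
      linear_combination hsum
    have e3 : p ^ 2 * (-b3 * w3 ^ 2) = -1 := by
      linear_combination -hom
    rw [e0, e1, e2, e3]
    rfl
  · intro x hx
    exact cj_inner_of _ hx hhB
  · intro x hx
    refine cj_outer_of _ hx ?_
    show (PM p w1 w2 w3).transpose * (dg b1 b2 b3 * hB b1 b2 b3 w1 w2 w3) * PM p w1 w2 w3 = _
    rw [mul_assoc, mul_assoc, hhB, ← mul_assoc, ← mul_assoc, hform, one_mul]
  · intro x hx
    refine cj_inner_of _ hx ?_
    show dg (-1) (-1) 1 * PM p w1 w2 w3 = PM p w1 w2 w3 * dg (-1) (-1) 1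
    ext i j
    fin_cases i <;> fin_cases j <;> simp [dg, PM, Matrix.mul_apply, Fin.sum_univ_three]

end Pool.Agent.H13.SCG
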